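import Pool.Agent.Y451.AM.Stm

set_option autoImplicit false

open MeasureTheory

noncomputable section

namespace Pool.Agent.Y376.AM

open Pool.Agent.Y451.AM
open Classical

/-! ### Finite probability -/

section prob
variable {Ω Λ : Type} [Fintype Ω] [Fintype Λ]

/-- expectation for the uniform measure -/
def ex (f : Ω → ℝ) : ℝ := (∑ ω, f ω) / (Fintype.card Ω : ℝ)

lemma pr_ex (E : Ω → Prop) : pr E = ex (fun ω => if E ω then (1 : ℝ) else 0) := rfl

lemma ex_mono {f g : Ω → ℝ} (h : ∀ ω, f ω ≤ g ω) : ex f ≤ ex g := by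
  unfold ex
  exact div_le_div_of_nonneg_right (Finset.sum_le_sum fun ω _ => h ω) (Nat.cast_nonneg _)

lemma ex_mul (c : ℝ) (f : Ω → ℝ) : ex (fun ω => c * f ω) = c * ex f := by
  unfold ex
  rw [← Finset.mul_sum, mul_div_assoc]

lemma ex_add (f g : Ω → ℝ) : ex (fun ω => f ω + g ω) = ex f + ex g := by
  unfold ex
  rw [Finset.sum_add_distrib, add_div]

lemma ex_sum {ι : Type} (s : Finset ι) (f : ι → Ω → ℝ) :
    ex (fun ω => ∑ i ∈ s, f i ω) = ∑ i ∈ s, ex (f i) := by
  unfold ex
  rw [Finset.sum_comm, Finset.sum_div]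

lemma ex_one [Nonempty Ω] : ex (fun _ : Ω => (1 : ℝ)) = 1 := by
  unfold ex
  rw [Finset.sum_const, nsmul_eq_mul, mul_one, Finset.card_univ, div_self]
  exact_mod_cast Fintype.card_ne_zero

lemma pr_congr {E E' : Ω → Prop} (h : ∀ ω, E ω ↔ E' ω) : pr E = pr E' := by
  have : E = E' := funext fun ω => propext (h ω)
  rw [this]

lemma pr_mono {E E' : Ω → Prop} (h : ∀ ω, E ω → E' ω) : pr E ≤ pr E' := by
  rw [pr_ex, pr_ex]
  refine ex_mono ?_
  intro ω
  by_cases h1 : E ω
  · simp [h1, h ω h1]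
  · simp only [h1, if_false]
    split_ifs <;> norm_num

lemma pr_nonneg (E : Ω → Prop) : 0 ≤ pr E := by
  unfold pr
  refine div_nonneg (Finset.sum_nonneg fun ω _ => ?_) (Nat.cast_nonneg _)
  split_ifs <;> norm_num

lemma pr_not [Nonempty Ω] (E : Ω → Prop) : pr E = 1 - pr (fun ω => ¬ E ω) := by
  rw [eq_sub_iff_add_eq, pr_ex, pr_ex, ← ex_add]
  refine (congrArg ex (funext fun ω => ?_)).trans ex_one
  by_cases h : E ω <;> simp [h]

lemma ex_prod (f : Ω × Λ → ℝ) : ex f = (∑ l : Λ, ex (fun ω => f (ω, l))) / (Fintype.card Λ : ℝ) := by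
  unfold ex
  rw [Fintype.sum_prod_type_right, Fintype.card_prod, ← Finset.sum_div, div_div]
  push_cast
  rfl

lemma pr_prod (E : Ω × Λ → Prop) :
    pr E = (∑ l : Λ, pr (fun ω => E (ω, l))) / (Fintype.card Λ : ℝ) := by
  rw [pr_ex, ex_prod]
  rfl

lemma pr_fst [Nonempty Λ] (E : Ω → Prop) : pr (fun q : Ω × Λ => E q.1) = pr E := by
  rw [pr_prod]
  show (∑ _l : Λ, pr E) / (Fintype.card Λ : ℝ) = pr E
  rw [Finset.sum_const, nsmul_eq_mul, Finset.card_univ, mul_comm, mul_div_assoc, div_self,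
    mul_one]
  exact_mod_cast Fintype.card_ne_zero

lemma pr_indep (E : Ω → Prop) (E' : Λ → Prop) :
    pr (fun q : Ω × Λ => E' q.2 ∧ E q.1) = pr E' * pr E := by
  rw [pr_prod]
  have h : ∀ l : Λ, pr (fun ω : Ω => E' l ∧ E ω) = (if E' l then (1 : ℝ) else 0) * pr E := by
    intro l
    by_cases hl : E' l
    · simp [hl]
    · simp only [hl, false_and, if_false, zero_mul]
      unfold pr
      simp
  simp only [h]
  rw [← Finset.sum_mul, mul_comm, mul_div_assoc, mul_comm]
  rfl

end prob

/-! ### Permutations -/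

lemma exists_perm {Γ : Type} {M : ℕ} (s : Finset Γ) (f f' : Γ → Fin M)
    (hf : Set.InjOn f s) (hf' : Set.InjOn f' s) :
    ∃ σ : Equiv.Perm (Fin M), ∀ g ∈ s, σ (f g) = f' g := by
  let e : {i // i ∈ f '' (s : Set Γ)} ≃ {i // i ∈ f' '' (s : Set Γ)} :=
    (Equiv.Set.imageOfInjOn f s hf).symm.trans (Equiv.Set.imageOfInjOn f' s hf')
  refine ⟨e.extendSubtype, ?_⟩
  intro g hg
  have hm : f g ∈ f '' (s : Set Γ) := ⟨g, hg, rfl⟩
  rw [Equiv.extendSubtype_apply_of_mem e (f g) hm]
  have h1 : (Equiv.Set.imageOfInjOn f s hf).symm ⟨f g, hm⟩ = ⟨g, hg⟩ := by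
    rw [Equiv.symm_apply_eq]
    rfl
  show ((Equiv.Set.imageOfInjOn f' s hf') ((Equiv.Set.imageOfInjOn f s hf).symm ⟨f g, hm⟩) : Fin M) = f' g
  rw [h1]
  rfl

/-! ### The count of isolated points -/

lemma count_fix {M : ℕ} (I : Finset (Fin M)) (γ : Fin M → Bool) :
    pr (fun l : Fin M → Bool => ∀ i ∈ I, l i = γ i) = (1 / 2 : ℝ) ^ I.card := by
  have h1 : ∀ l : Fin M → Bool, (if (∀ i ∈ I, l i = γ i) then (1 : ℝ) else 0) =
      ∏ i, (if i ∈ I then (if l i = γ i then (1 : ℝ) else 0) else 1) := by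
    intro l
    by_cases h : ∀ i ∈ I, l i = γ i
    · rw [if_pos h]
      symm
      refine Finset.prod_eq_one ?_
      intro i _
      by_cases hi : i ∈ I
      · simp [hi, h i hi]
      · simp [hi]
    · rw [if_neg h]
      push Not at h
      obtain ⟨i, hi, hne⟩ := h
      symm
      refine Finset.prod_eq_zero (Finset.mem_univ i) ?_
      simp [hi, hne]
  have h0 : pr (fun l : Fin M → Bool => ∀ i ∈ I, l i = γ i) =
      (∑ l : Fin M → Bool, ∏ i, (if i ∈ I then (if l i = γ i then (1 : ℝ) else 0) else 1)) /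
        (Fintype.card (Fin M → Bool) : ℝ) := by
    unfold pr
    congr 1
    refine Finset.sum_congr rfl ?_
    intro l _
    rw [← h1 l]
    congr
  rw [h0]
  have h2 := Finset.prod_univ_sum (fun _ : Fin M => (Finset.univ : Finset Bool))
    (fun i b => (if i ∈ I then (if b = γ i then (1 : ℝ) else 0) else 1))
  rw [Fintype.piFinset_univ] at h2
  rw [← h2]
  have h3 : ∀ i : Fin M, ∑ b : Bool, (if i ∈ I then (if b = γ i then (1 : ℝ) else 0) else 1) =
      2 * (if i ∈ I then (1 / 2 : ℝ) else 1) := by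
    intro i
    by_cases hi : i ∈ I
    · simp only [hi, if_true]
      rw [Finset.sum_ite_eq' Finset.univ (γ i) (fun _ => (1 : ℝ))]
      simp
    · simp [hi]
  simp only [h3]
  rw [Finset.prod_mul_distrib, Finset.prod_ite_mem, Finset.univ_inter, Finset.prod_const,
    Finset.prod_const]
  rw [Finset.card_univ, Fintype.card_fin, Fintype.card_fun, Fintype.card_bool, Fintype.card_fin]
  push_cast
  rw [mul_comm, mul_div_assoc, div_self (by positivity), mul_one]

/-! ### The abstract construction -/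

section cons
variable {Γ : Type} [Group Γ]

/-- quotients `u⁻¹ v` -/
def qq (K : Finset Γ) : Finset Γ := (K ×ˢ K).image fun p => p.1⁻¹ * p.2

lemma mem_qq {K : Finset Γ} {u v : Γ} (hu : u ∈ K) (hv : v ∈ K) : u⁻¹ * v ∈ qq K := by
  unfold qq
  exact Finset.mem_image.2 ⟨(u, v), Finset.mem_product.2 ⟨hu, hv⟩, rfl⟩

lemma one_mem_qq {K : Finset Γ} (hK : K.Nonempty) : (1 : Γ) ∈ qq K := by
  obtain ⟨u, hu⟩ := hK
  have := mem_qq hu hu
  simpa using this

/-- a choice of an element with the property `P` -/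
def pick (P : Γ → Prop) : Option Γ := if h : ∃ v, P v then some (Classical.choose h) else none

lemma pick_spec {P : Γ → Prop} {v : Γ} (h : pick P = some v) : P v := by
  unfold pick at h
  by_cases h1 : ∃ v, P v
  · rw [dif_pos h1] at h
    have := Classical.choose_spec h1
    rw [Option.some.injEq] at h
    rwa [h] at this
  · rw [dif_neg h1] at h
    exact absurd h (by simp)

lemma pick_eq {P : Γ → Prop} {v : Γ} (h : P v) (hu : ∀ v', P v' → v' = v) : pick P = some v := by
  unfold pick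
  have h1 : ∃ v, P v := ⟨v, h⟩
  rw [dif_pos h1]
  congr 1
  exact hu _ (Classical.choose_spec h1)

/-- isolated points -/
def isoP (K : Finset Γ) (b : Γ → Bool) (h : Γ) : Prop :=
  b h = true ∧ ∀ z ∈ qq K, z ≠ 1 → b (z * h) = false

/-- at most half of the points of the tile are covered -/
def halfP (K : Finset Γ) (z : Γ → Option Γ) (h : Γ) : Prop :=
  2 * (K.filter fun u => z (u * h) ≠ none).card ≤ K.card

/-- the new tiling -/
def newP (K : Finset Γ) (z : Γ → Option Γ) (b : Γ → Bool) (g : Γ) : Option Γ :=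
  if z g = none then pick (fun v => v ∈ K ∧ isoP K b (v⁻¹ * g) ∧ halfP K z (v⁻¹ * g)) else z g

variable {X : Type} (a : Γ → X → X)

/-- isolated points -/
def iso {M : ℕ} (K : Finset Γ) (κ : X → Fin M) (l : Fin M → Bool) (y : X) : Prop :=
  l (κ y) = true ∧ ∀ z ∈ qq K, z ≠ 1 → l (κ (a z y)) = false

/-- at most half of the points of the tile are covered -/
def half (K : Finset Γ) (p : X → Option Γ) (y : X) : Prop :=
  2 * (K.filter fun u => p (a u y) ≠ none).card ≤ K.card

/-- the new tiling -/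
def newp {M : ℕ} (K : Finset Γ) (κ : X → Fin M) (p : X → Option Γ) (l : Fin M → Bool) (x : X) :
    Option Γ :=
  if p x = none then pick (fun v => v ∈ K ∧ iso a K κ l (a v⁻¹ x) ∧ half a K p (a v⁻¹ x)) else p x

variable {a}

lemma iso_isoP (hmul : ∀ g h x, a (g * h) x = a g (a h x)) {M : ℕ} (K : Finset Γ) (κ : X → Fin M)
    (l : Fin M → Bool) (x : X) (h : Γ) :
    iso a K κ l (a h x) ↔ isoP K (fun g => l (κ (a g x))) h := by
  unfold iso isoP
  simp only [hmul]

lemma half_halfP (hmul : ∀ g h x, a (g * h) x = a g (a h x)) (K : Finset Γ) (p : X → Option Γ)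
    (x : X) (h : Γ) : half a K p (a h x) ↔ halfP K (fun g => p (a g x)) h := by
  unfold half halfP
  simp only [hmul]

lemma newp_newP (hmul : ∀ g h x, a (g * h) x = a g (a h x)) {M : ℕ} (K : Finset Γ) (κ : X → Fin M)
    (p : X → Option Γ) (l : Fin M → Bool) (x : X) (g : Γ) :
    newp a K κ p l (a g x) = newP K (fun g => p (a g x)) (fun g => l (κ (a g x))) g := by
  unfold newp newP
  simp only [← iso_isoP hmul, ← half_halfP hmul, hmul]

/-- uniqueness of the centre -/
lemma iso_uniq (hone : ∀ x, a 1 x = x) (hmul : ∀ g h x, a (g * h) x = a g (a h x)) {M : ℕ}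
    {K : Finset Γ} {κ : X → Fin M} {l : Fin M → Bool} {x : X} {v v' : Γ} (hv : v ∈ K)
    (hv' : v' ∈ K) (h : iso a K κ l (a v⁻¹ x)) (h' : iso a K κ l (a v'⁻¹ x)) : v' = v := by
  by_contra hne
  have hz : v'⁻¹ * v ≠ 1 := by
    intro h1
    exact hne (inv_mul_eq_one.1 h1)
  have h2 := h.2 (v'⁻¹ * v) (mem_qq hv' hv) hz
  rw [← hmul, mul_assoc, mul_inv_cancel, mul_one] at h2
  have h3 := h'.1
  rw [h2] at h3
  exact absurd h3 (by simp)

lemma newp_old {M : ℕ} {K : Finset Γ} {κ : X → Fin M} {p : X → Option Γ} {l : Fin M → Bool}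
    {x : X} (h : p x ≠ none) : newp a K κ p l x = p x := by
  unfold newp
  rw [if_neg h]

lemma newp_new (hone : ∀ x, a 1 x = x) (hmul : ∀ g h x, a (g * h) x = a g (a h x)) {M : ℕ}
    {K : Finset Γ} {κ : X → Fin M} {p : X → Option Γ} {l : Fin M → Bool}
    {x : X} {v : Γ} (h : p x = none) (hv : v ∈ K) (h1 : iso a K κ l (a v⁻¹ x))
    (h2 : half a K p (a v⁻¹ x)) : newp a K κ p l x = some v := by
  unfold newp
  rw [if_pos h]
  exact pick_eq ⟨hv, h1, h2⟩ (fun v' hv' => iso_uniq hone hmul hv hv'.1 h1 hv'.2.1)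

lemma newp_some {M : ℕ} {K : Finset Γ} {κ : X → Fin M} {p : X → Option Γ} {l : Fin M → Bool}
    {x : X} {v : Γ} (h : newp a K κ p l x = some v) :
    p x = some v ∨ (p x = none ∧ v ∈ K ∧ iso a K κ l (a v⁻¹ x) ∧ half a K p (a v⁻¹ x)) := by
  unfold newp at h
  by_cases h1 : p x = none
  · rw [if_pos h1] at h
    have := pick_spec h
    exact Or.inr ⟨h1, this.1, this.2.1, this.2.2⟩
  · rw [if_neg h1] at h
    exact Or.inl h

end cons

/-! ### Invariance of the law -/

lemma inv_law {Γ : Type} [Group Γ] {X Ω : Type} [Fintype Ω] {a : Γ → X → X} {M : ℕ}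
    {D' D2 : Finset Γ} {p : Ω → X → Option Γ} (hlaw : LawInv a D' p) (κ : X → Fin M)
    (hκ : ∀ x, ∀ g ∈ D2, ∀ h ∈ D2, κ (a g x) = κ (a h x) → g = h)
    (E : (Γ → Option Γ) → (Γ → Bool) → Prop)
    (hE : ∀ z z' b b', (∀ g ∈ D', z g = z' g) → (∀ g ∈ D2, b g = b' g) → E z b → E z' b')
    (x x' : X) :
    pr (fun q : Ω × (Fin M → Bool) => E (fun g => p q.1 (a g x)) (fun g => q.2 (κ (a g x)))) =
    pr (fun q : Ω × (Fin M → Bool) => E (fun g => p q.1 (a g x')) (fun g => q.2 (κ (a g x')))) := by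
  obtain ⟨σ, hσ⟩ := exists_perm D2 (fun g => κ (a g x)) (fun g => κ (a g x'))
    (fun g hg h hh he => hκ x g hg h hh he) (fun g hg h hh he => hκ x' g hg h hh he)
  rw [pr_prod, pr_prod]
  congr 1
  let e : (Fin M → Bool) ≃ (Fin M → Bool) := Equiv.arrowCongr σ.symm (Equiv.refl Bool)
  rw [← Equiv.sum_comp e]
  refine Finset.sum_congr rfl ?_
  intro l _
  have he : ∀ g ∈ D2, e l (κ (a g x)) = l (κ (a g x')) := by
    intro g hg
    show l (σ (κ (a g x))) = l (κ (a g x'))
    rw [hσ g hg]
  have h1 : pr (fun ω : Ω => E (fun g => p ω (a g x)) (fun g => e l (κ (a g x)))) =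
      pr (fun ω : Ω => E (fun g => p ω (a g x)) (fun g => l (κ (a g x')))) := by
    refine pr_congr ?_
    intro ω
    exact ⟨hE _ _ _ _ (fun g _ => rfl) he, hE _ _ _ _ (fun g _ => rfl) (fun g hg => (he g hg).symm)⟩
  show pr (fun ω : Ω => E (fun g => p ω (a g x)) (fun g => e l (κ (a g x)))) =
    pr (fun ω : Ω => E (fun g => p ω (a g x')) (fun g => l (κ (a g x'))))
  rw [h1]
  exact hlaw x x' (fun z => E z (fun g => l (κ (a g x'))))
    (fun z z' hz => hE _ _ _ _ hz (fun g _ => rfl))

/-! ### Windows -/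

section win
variable {Γ : Type} [Group Γ]

/-- window for the old tiling -/
def DA (K D : Finset Γ) : Finset Γ :=
  D ∪ ((K ×ˢ (K ×ˢ D)).image fun t => t.1 * (t.2.1⁻¹ * t.2.2))

/-- window for the colours -/
def DB (K D : Finset Γ) : Finset Γ :=
  ((qq K ×ˢ (K ×ˢ D)).image fun t => t.1 * (t.2.1⁻¹ * t.2.2)) ∪ qq K

lemma mem_DA1 {K D : Finset Γ} {g : Γ} (hg : g ∈ D) : g ∈ DA K D :=
  Finset.mem_union_left _ hg

lemma mem_DA2 {K D : Finset Γ} {u v g : Γ} (hu : u ∈ K) (hv : v ∈ K) (hg : g ∈ D) :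
    u * (v⁻¹ * g) ∈ DA K D :=
  Finset.mem_union_right _ (Finset.mem_image.2 ⟨(u, v, g),
    Finset.mem_product.2 ⟨hu, Finset.mem_product.2 ⟨hv, hg⟩⟩, rfl⟩)

lemma mem_DB {K D : Finset Γ} {u v g : Γ} (hu : u ∈ qq K) (hv : v ∈ K) (hg : g ∈ D) :
    u * (v⁻¹ * g) ∈ DB K D :=
  Finset.mem_union_left _ (Finset.mem_image.2 ⟨(u, v, g),
    Finset.mem_product.2 ⟨hu, Finset.mem_product.2 ⟨hv, hg⟩⟩, rfl⟩)

lemma isoP_congr {K : Finset Γ} {b b' : Γ → Bool} {h : Γ} (hK : K.Nonempty)
    (hz : ∀ z ∈ qq K, b (z * h) = b' (z * h)) : isoP K b h ↔ isoP K b' h := by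
  have h1 : b h = b' h := by simpa using hz 1 (one_mem_qq hK)
  unfold isoP
  rw [h1]
  refine and_congr Iff.rfl (forall_congr' fun z => ?_)
  refine forall_congr' fun hz' => ?_
  rw [hz z hz']

lemma halfP_congr {K : Finset Γ} {z z' : Γ → Option Γ} {h : Γ}
    (hz : ∀ u ∈ K, z (u * h) = z' (u * h)) : halfP K z h ↔ halfP K z' h := by
  unfold halfP
  have : (K.filter fun u => z (u * h) ≠ none) = K.filter fun u => z' (u * h) ≠ none := by
    refine Finset.filter_congr ?_
    intro u hu
    rw [hz u hu]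
  rw [this]

lemma newP_congr {K D : Finset Γ} (hK : K.Nonempty) {z z' : Γ → Option Γ} {b b' : Γ → Bool}
    (hz : ∀ g ∈ DA K D, z g = z' g) (hb : ∀ g ∈ DB K D, b g = b' g) {g : Γ} (hg : g ∈ D) :
    newP K z b g = newP K z' b' g := by
  have h1 : z g = z' g := hz g (mem_DA1 hg)
  have h2 : (fun v => v ∈ K ∧ isoP K b (v⁻¹ * g) ∧ halfP K z (v⁻¹ * g)) =
      (fun v => v ∈ K ∧ isoP K b' (v⁻¹ * g) ∧ halfP K z' (v⁻¹ * g)) := by
    funext v
    refine propext (and_congr_right fun hv => ?_)
    rw [isoP_congr hK (fun w hw => hb _ (mem_DB hw hv hg)),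
      halfP_congr (fun u hu => hz _ (mem_DA2 hu hv hg))]
  unfold newP
  rw [h1, h2]

end win

/-! ### Measurability -/

section meas
variable {Γ : Type} [Group Γ] {X : Type} [MeasurableSpace X] {a : Γ → X → X}

lemma meas_half (hm : ∀ g, Measurable (a g)) (K : Finset Γ) {p : X → Option Γ}
    (hp : MeasurableSet {x | p x = none}) : MeasurableSet {y | half a K p y} := by
  have h1 : Measurable (fun y : X => (K.filter fun u => p (a u y) ≠ none).card) := by
    simp only [Finset.card_filter]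
    refine Finset.measurable_sum _ ?_
    intro u _
    refine Measurable.ite ?_ measurable_const measurable_const
    exact (hm u hp).compl
  exact h1 (MeasurableSet.of_discrete (s := {m : ℕ | 2 * m ≤ K.card}))

lemma meas_iso (hm : ∀ g, Measurable (a g)) {M : ℕ} (K : Finset Γ) {κ : X → Fin M}
    (hκ : Measurable κ) (l : Fin M → Bool) : MeasurableSet {y | iso a K κ l y} := by
  have h1 : {y | iso a K κ l y} = {y | l (κ y) = true} ∩
      ⋂ z ∈ qq K, {y | z ≠ 1 → l (κ (a z y)) = false} := by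
    ext y
    simp only [iso, Set.mem_setOf_eq, Set.mem_inter_iff, Set.mem_iInter]
  rw [h1]
  refine MeasurableSet.inter ?_ ?_
  · exact hκ (MeasurableSet.of_discrete (s := {i | l i = true}))
  · refine Finset.measurableSet_biInter _ ?_
    intro z _
    by_cases hz : z = 1
    · simp [hz]
    · simp only [ne_eq, hz, not_false_eq_true, true_imp_iff]
      exact (hκ.comp (hm z)) (MeasurableSet.of_discrete (s := {i | l i = false}))

lemma til_new (hone : ∀ x, a 1 x = x) (hmul : ∀ g h x, a (g * h) x = a g (a h x))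
    (hm : ∀ g, Measurable (a g)) {M : ℕ} {K : Finset Γ} {κ : X → Fin M}
    (hκ : Measurable κ) (l : Fin M → Bool) {p : X → Option Γ} (hp : Til K p) :
    Til K (newp a K κ p l) := by
  have hmem : ∀ x v, newp a K κ p l x = some v → v ∈ K := by
    intro x v h
    rcases newp_some h with h | h
    · exact hp.mem x v h
    · exact h.2.1
  have hsome : ∀ v, MeasurableSet {x | newp a K κ p l x = some v} := by
    intro v
    have h1 : {x | newp a K κ p l x = some v} = {x | p x = some v} ∪
        ({x | p x = none} ∩ ({x | v ∈ K} ∩ ((a v⁻¹) ⁻¹' {y | iso a K κ l y} ∩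
          (a v⁻¹) ⁻¹' {y | half a K p y}))) := by
      ext x
      constructor
      · intro h
        rcases newp_some h with h | h
        · exact Or.inl h
        · exact Or.inr ⟨h.1, h.2.1, h.2.2.1, h.2.2.2⟩
      · rintro (h | ⟨h1, h2, h3, h4⟩)
        · have h' : p x = some v := h
          show newp a K κ p l x = some v
          rw [newp_old (by rw [h']; simp), h']
        · exact newp_new hone hmul h1 h2 h3 h4
    rw [h1]
    refine (hp.meas _).union ((hp.meas _).inter (MeasurableSet.inter ?_ ?_))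
    · by_cases hv : v ∈ K <;> simp [hv]
    · exact ((hm _) (meas_iso hm K hκ l)).inter ((hm _) (meas_half hm K (hp.meas _)))
  refine ⟨?_, hmem⟩
  intro o
  cases o with
  | some v => exact hsome v
  | none =>
    have h1 : {x | newp a K κ p l x = none} =
        (⋃ v ∈ K, {x | newp a K κ p l x = some v})ᶜ := by
      ext x
      simp only [Set.mem_setOf_eq, Set.mem_compl_iff, Set.mem_iUnion, exists_prop, not_exists,
        not_and]
      constructor
      · intro h v _
        rw [h]
        simp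
      · intro h
        rcases hx : newp a K κ p l x with _ | v
        · rfl
        · exact absurd hx (h v (hmem x v hx))
    rw [h1]
    exact (Finset.measurableSet_biUnion _ fun v _ => hsome v).compl

end meas

/-! ### The properties of the new tiling -/

section tilf
variable {Γ : Type} [Group Γ] {X : Type} [MeasurableSpace X] {a : Γ → X → X}

lemma tilf_new (hone : ∀ x, a 1 x = x) (hmul : ∀ g h x, a (g * h) x = a g (a h x))
    (hm : ∀ g, Measurable (a g)) {M : ℕ} {K S D : Finset Γ} (hK : K.Nonempty)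
    (hS : ∀ s ∈ S, s⁻¹ ∈ S) {κ : X → Fin M}
    (hκ : Measurable κ) (hinj : ∀ x, ∀ g ∈ DB K D, ∀ h ∈ DB K D, κ (a g x) = κ (a h x) → g = h)
    {Ω : Type} [Fintype Ω] {p : Ω → X → Option Γ} (hp : TilF a K S (DA K D) p) :
    TilF a K S D (fun q : Ω × (Fin M → Bool) => newp a K κ (p q.1) q.2) := by
  refine ⟨?_, ?_, ?_, ?_⟩
  · intro q
    exact til_new hone hmul hm hκ q.2 (hp.til q.1)
  · rintro ⟨ω, l⟩ x v s hs hx hsv
    simp only at hx ⊢
    rcases newp_some hx with h | ⟨h0, hv, hi, hh⟩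
    · obtain ⟨v', hv', hor⟩ := hp.g2 ω x v s hs h hsv
      refine ⟨v', ?_, hor⟩
      rw [newp_old (by rw [hv']; simp), hv']
    · rcases hsx : p ω (a s x) with _ | v'
      · refine ⟨s * v, ?_, Or.inl rfl⟩
        have h1 : a (s * v)⁻¹ (a s x) = a v⁻¹ x := by
          rw [← hmul, mul_inv_rev, mul_assoc, inv_mul_cancel, mul_one]
        refine newp_new hone hmul hsx hsv ?_ ?_
        · rw [h1]
          exact hi
        · rw [h1]
          exact hh
      · refine ⟨v', ?_, Or.inr ?_⟩
        · rw [newp_old (by rw [hsx]; simp), hsx]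
        · intro hcon
          obtain ⟨v'', h1, _⟩ := hp.g2 ω (a s x) v' s⁻¹ (hS s hs) hsx hcon
          rw [← hmul, inv_mul_cancel, hone, h0] at h1
          exact absurd h1 (by simp)
  · rintro ⟨ω, l⟩ y hne
    simp only at hne ⊢
    obtain ⟨u, hu⟩ := hne
    unfold shp at hu
    rw [Finset.mem_filter] at hu
    rcases newp_some hu.2 with h | ⟨h0, hv, hi, hh⟩
    · have h1 : (shp a K (p ω) y).Nonempty := ⟨u, Finset.mem_filter.2 ⟨hu.1, h⟩⟩
      refine (hp.g3 ω y h1).trans (Nat.mul_le_mul_left _ (Finset.card_le_card ?_))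
      intro w hw
      unfold shp at hw ⊢
      rw [Finset.mem_filter] at hw ⊢
      refine ⟨hw.1, ?_⟩
      rw [newp_old (by rw [hw.2]; simp), hw.2]
    · have e1 : ∀ w : Γ, a w⁻¹ (a w y) = y := by
        intro w
        rw [← hmul, inv_mul_cancel, hone]
      rw [e1] at hi hh
      have h2 : (K.filter fun w => ¬ p ω (a w y) ≠ none) ⊆ shp a K (newp a K κ (p ω) l) y := by
        intro w hw
        rw [Finset.mem_filter, not_not] at hw
        unfold shp
        rw [Finset.mem_filter]
        refine ⟨hw.1, ?_⟩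
        refine newp_new hone hmul hw.2 hw.1 ?_ ?_
        · rw [e1]
          exact hi
        · rw [e1]
          exact hh
      have h3 := Finset.card_le_card h2
      have h4 := Finset.card_filter_add_card_filter_not (s := K) (fun w => p ω (a w y) ≠ none)
      have h5 : 2 * (K.filter fun w => p ω (a w y) ≠ none).card ≤ K.card := hh
      omega
  · intro x x' E hE
    simp only [newp_newP hmul]
    refine inv_law hp.law κ hinj
      (fun z b => E (fun g => newP K z b g)) ?_ x x'
    intro z z' b b' hz hb h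
    exact hE _ _ (fun g hg => newP_congr hK hz hb hg) h

end tilf

/-! ### Coverage -/

section cover
variable {Γ : Type} [Group Γ] {X : Type} [MeasurableSpace X] {a : Γ → X → X}

lemma pr_iso (hone : ∀ x, a 1 x = x) {M : ℕ} {K : Finset Γ} (hK : K.Nonempty) {κ : X → Fin M}
    (x : X) (hinj : ∀ g ∈ qq K, ∀ h ∈ qq K, κ (a g x) = κ (a h x) → g = h) :
    pr (fun l : Fin M → Bool => iso a K κ l x) = (1 / 2 : ℝ) ^ (qq K).card := by
  have h1 : ((qq K).image fun z => κ (a z x)).card = (qq K).card :=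
    Finset.card_image_of_injOn (fun g hg h hh he => hinj g hg h hh he)
  rw [← h1, ← count_fix _ (fun i => decide (i = κ x))]
  refine pr_congr ?_
  intro l
  unfold iso
  constructor
  · rintro ⟨h2, h3⟩ i hi
    obtain ⟨z, hz, rfl⟩ := Finset.mem_image.1 hi
    by_cases hz1 : z = 1
    · subst hz1
      rw [hone, h2]
      simp
    · rw [h3 z hz hz1]
      have hne : κ (a z x) ≠ κ x := by
        intro he
        have := hinj z hz 1 (one_mem_qq hK) (by rw [hone]; exact he)
        exact hz1 this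
      simp [hne]
  · intro h2
    constructor
    · have := h2 (κ x) (Finset.mem_image.2 ⟨1, one_mem_qq hK, by rw [hone]⟩)
      simpa using this
    · intro z hz hz1
      have hne : κ (a z x) ≠ κ x := by
        intro he
        have := hinj z hz 1 (one_mem_qq hK) (by rw [hone]; exact he)
        exact hz1 this
      have := h2 _ (Finset.mem_image.2 ⟨z, hz, rfl⟩)
      simpa [hne] using this

lemma pr_half {K : Finset Γ} (hK : K.Nonempty) {Ω : Type} [Fintype Ω] [Nonempty Ω]
    {p : Ω → X → Option Γ} (x : X) (P : ℝ)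
    (hP : ∀ u ∈ K, pr (fun ω => p ω (a u x) ≠ none) = P) :
    1 - 2 * P ≤ pr (fun ω => half a K (p ω) x) := by
  rw [pr_not]
  have hK0 : (0 : ℝ) < (K.card : ℝ) := by exact_mod_cast hK.card_pos
  have h1 : (K.card : ℝ) * pr (fun ω => ¬ half a K (p ω) x) ≤ 2 * ((K.card : ℝ) * P) := by
    have h2 : ∑ u ∈ K, pr (fun ω => p ω (a u x) ≠ none) = (K.card : ℝ) * P := by
      rw [Finset.sum_congr rfl hP, Finset.sum_const, nsmul_eq_mul]
    rw [← h2]
    simp only [pr_ex]
    rw [← ex_sum, ← ex_mul, ← ex_mul]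
    refine ex_mono ?_
    intro ω
    have h3 : ∑ u ∈ K, (if p ω (a u x) ≠ none then (1 : ℝ) else 0) =
        ((K.filter fun u => p ω (a u x) ≠ none).card : ℝ) := by
      rw [Finset.card_filter]
      push_cast
      rfl
    have h3' : ∑ i ∈ K, (@ite ℝ (p ω (a i x) ≠ none) (Classical.propDecidable _) 1 0) =
        ((K.filter fun u => p ω (a u x) ≠ none).card : ℝ) := by
      rw [← h3]
      exact Finset.sum_congr rfl (fun u _ => by congr)
    rw [h3']
    by_cases h : half a K (p ω) x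
    · simp only [h, not_true_eq_false, if_false, mul_zero]
      positivity
    · simp only [h, not_false_eq_true, if_true, mul_one]
      unfold half at h
      push Not at h
      exact_mod_cast h.le
  nlinarith

lemma cover (hone : ∀ x, a 1 x = x) (hmul : ∀ g h x, a (g * h) x = a g (a h x))
    {M : ℕ} {K D : Finset Γ} (hK : K.Nonempty) (hD : (1 : Γ) ∈ D) {κ : X → Fin M}
    (hinj : ∀ x, ∀ g ∈ DB K D, ∀ h ∈ DB K D, κ (a g x) = κ (a h x) → g = h)
    {Ω : Type} [Fintype Ω] [Nonempty Ω] {p : Ω → X → Option Γ} (hp : LawInv a (DA K D) p) (x : X) :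
    min (1 / 4) (pr (fun ω => p ω x ≠ none) + (1 / 2 : ℝ) ^ (qq K).card / 4) ≤
      pr (fun q : Ω × (Fin M → Bool) => newp a K κ (p q.1) q.2 x ≠ none) := by
  set P : ℝ := pr (fun ω => p ω x ≠ none) with hPdef
  have hPinv : ∀ x', pr (fun ω => p ω x' ≠ none) = P := by
    intro x'
    have := hp x' x (fun z => z 1 ≠ none) (by
      intro z z' hz h
      rwa [← hz 1 (mem_DA1 hD)])
    simpa only [hone] using this
  have hP0 : 0 ≤ P := pr_nonneg _
  -- lower bound for the new coverage
  have h1 : P + ∑ v ∈ K, pr (fun q : Ω × (Fin M → Bool) => p q.1 x = none ∧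
      iso a K κ q.2 (a v⁻¹ x) ∧ half a K (p q.1) (a v⁻¹ x)) ≤
      pr (fun q : Ω × (Fin M → Bool) => newp a K κ (p q.1) q.2 x ≠ none) := by
    have e1 : P = pr (fun q : Ω × (Fin M → Bool) => p q.1 x ≠ none) := (pr_fst _).symm
    rw [e1]
    simp only [pr_ex]
    rw [← ex_sum, ← ex_add]
    refine ex_mono ?_
    rintro ⟨ω, l⟩
    simp only
    by_cases h0 : p ω x = none
    · by_cases hex : ∃ v ∈ K, iso a K κ l (a v⁻¹ x) ∧ half a K (p ω) (a v⁻¹ x)
      · obtain ⟨v, hv, hi, hh⟩ := hex
        have e2 : newp a K κ (p ω) l x = some v := newp_new hone hmul h0 hv hi hh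
        rw [Finset.sum_eq_single v]
        · simp [h0, e2, hi, hh]
        · intro v' hv' hne
          rw [if_neg]
          rintro ⟨_, hi', _⟩
          exact hne (iso_uniq hone hmul hv hv' hi hi')
        · intro hv'
          exact absurd hv hv'
      · push Not at hex
        rw [Finset.sum_eq_zero]
        · simp only [h0, ne_eq, not_true_eq_false, if_false, add_zero]
          split_ifs <;> norm_num
        · intro v hv
          rw [if_neg]
          rintro ⟨_, hi', hh'⟩
          exact hex v hv hi' hh'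
    · have e2 : newp a K κ (p ω) l x = p ω x := newp_old h0
      rw [e2]
      simp [h0]
  -- move the point
  have h2 : ∀ v ∈ K, pr (fun q : Ω × (Fin M → Bool) => p q.1 x = none ∧
      iso a K κ q.2 (a v⁻¹ x) ∧ half a K (p q.1) (a v⁻¹ x)) =
      pr (fun q : Ω × (Fin M → Bool) => p q.1 (a v x) = none ∧
        iso a K κ q.2 x ∧ half a K (p q.1) x) := by
    intro v hv
    have := inv_law hp κ hinj
      (fun z b => z 1 = none ∧ isoP K b v⁻¹ ∧ halfP K z v⁻¹) ?_ x (a v x)
    · simp only [← iso_isoP hmul, ← half_halfP hmul] at this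
      simpa only [hone, ← hmul, inv_mul_cancel] using this
    · intro z z' b b' hz hb h
      have e1 : v⁻¹ = v⁻¹ * 1 := (mul_one _).symm
      refine ⟨by rw [← hz 1 (mem_DA1 hD)]; exact h.1, ?_, ?_⟩
      · refine (isoP_congr hK ?_).1 h.2.1
        intro w hw
        rw [e1]
        exact hb _ (mem_DB hw hv hD)
      · refine (halfP_congr ?_).1 h.2.2
        intro u hu
        rw [e1]
        exact hz _ (mem_DA2 hu hv hD)
  rw [Finset.sum_congr rfl h2] at h1
  -- count
  have h3 : (K.card : ℝ) / 2 * pr (fun q : Ω × (Fin M → Bool) => iso a K κ q.2 x ∧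
      half a K (p q.1) x) ≤
      ∑ v ∈ K, pr (fun q : Ω × (Fin M → Bool) => p q.1 (a v x) = none ∧
        iso a K κ q.2 x ∧ half a K (p q.1) x) := by
    simp only [pr_ex]
    rw [← ex_sum, ← ex_mul]
    refine ex_mono ?_
    rintro ⟨ω, l⟩
    simp only
    by_cases h : iso a K κ l x ∧ half a K (p ω) x
    · simp only [h, and_self, and_true, if_true, mul_one]
      have h4 : ∑ v ∈ K, (if p ω (a v x) = none then (1 : ℝ) else 0) =
          ((K.filter fun v => p ω (a v x) = none).card : ℝ) := by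
        rw [Finset.card_filter]
        push_cast
        rfl
      rw [h4]
      have h5 := Finset.card_filter_add_card_filter_not (s := K) (fun w => p ω (a w x) ≠ none)
      have h6 : 2 * (K.filter fun w => p ω (a w x) ≠ none).card ≤ K.card := h.2
      have h7 : (K.filter fun w => ¬ p ω (a w x) ≠ none) = K.filter fun v => p ω (a v x) = none := by
        refine Finset.filter_congr ?_
        intro w _
        simp
      rw [h7] at h5
      have h8 : (K.card : ℝ) ≤ 2 * ((K.filter fun v => p ω (a v x) = none).card : ℝ) := by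
        exact_mod_cast (show K.card ≤ 2 * (K.filter fun v => p ω (a v x) = none).card by omega)
      linarith
    · simp only [h, if_false, mul_zero]
      refine Finset.sum_nonneg ?_
      intro v _
      split_ifs <;> norm_num
  have h4 : pr (fun q : Ω × (Fin M → Bool) => iso a K κ q.2 x ∧ half a K (p q.1) x) =
      (1 / 2 : ℝ) ^ (qq K).card * pr (fun ω => half a K (p ω) x) := by
    rw [pr_indep (fun ω => half a K (p ω) x) (fun l => iso a K κ l x),
      pr_iso hone hK x (fun g hg h hh he => hinj x g (Finset.mem_union_right _ hg) h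
        (Finset.mem_union_right _ hh) he)]
  have h5 := pr_half (a := a) hK (p := p) x P (fun u _ => hPinv (a u x))
  rw [h4] at h3
  have hK1 : (1 : ℝ) ≤ (K.card : ℝ) := by exact_mod_cast hK.card_pos
  have hc : (0 : ℝ) < (1 / 2 : ℝ) ^ (qq K).card := by positivity
  set c : ℝ := (1 / 2 : ℝ) ^ (qq K).card with hcdef
  set H : ℝ := pr (fun ω => half a K (p ω) x) with hHdef
  have hH0 : 0 ≤ H := pr_nonneg _
  have hQ : P + (K.card : ℝ) / 2 * (c * H) ≤
      pr (fun q : Ω × (Fin M → Bool) => newp a K κ (p q.1) q.2 x ≠ none) := by linarith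
  by_cases hP4 : P ≤ 1 / 4
  · have h6 : 1 / 2 ≤ H := by linarith
    have h7 : c / 4 ≤ (K.card : ℝ) / 2 * (c * H) := by
      have h8 : c * (1 / 2) ≤ c * H := mul_le_mul_of_nonneg_left h6 hc.le
      have h9 : 1 / 2 * (c * (1 / 2)) ≤ (K.card : ℝ) / 2 * (c * H) :=
        mul_le_mul (by linarith) h8 (by positivity) (by positivity)
      linarith
    exact (min_le_right _ _).trans (by linarith)
  · have h7 : 0 ≤ (K.card : ℝ) / 2 * (c * H) := by positivity
    exact (min_le_left _ _).trans (by linarith)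

end cover

lemma tilf_mono {Γ X Ω : Type} [Group Γ] [MeasurableSpace X] [Fintype Ω] {a : Γ → X → X}
    {K S D D' : Finset Γ} {p : Ω → X → Option Γ} (h : D ⊆ D') (hp : TilF a K S D' p) :
    TilF a K S D p := by
  refine ⟨hp.til, hp.g2, hp.g3, ?_⟩
  intro x x' E hE
  exact hp.law x x' E (fun z z' hz => hE z z' (fun g hg => hz g (h hg)))

theorem rnd (hC : Pool.Agent.Y451.AM.S_COL) : Pool.Agent.Y451.AM.S_RND := by
  intro Γ _ _ X _ _ a hA K S hK hS
  refine ⟨(1 / 2 : ℝ) ^ (qq K).card / 4, by positivity, ?_⟩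
  intro D
  refine ⟨DA K (insert 1 D), ?_⟩
  intro Ω _ _ p hp
  obtain ⟨M, κ, hκ, hinj⟩ := hC Γ X a hA (DB K (insert 1 D))
  refine ⟨Ω × (Fin M → Bool), inferInstance, inferInstance,
    fun q => newp a K κ (p q.1) q.2, ?_, ?_⟩
  · exact tilf_mono (Finset.subset_insert 1 D) (tilf_new hA.one hA.mul hA.meas hK hS hκ hinj hp)
  · intro x
    exact cover hA.one hA.mul hK (Finset.mem_insert_self 1 D) hinj hp.law x

end Pool.Agent.Y376.AM

end
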